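import Pool.Agent.Helper38.WY.Goals4
import Pool.Agent.Helper8.PPB.BGL0
import Pool.Agent.Helper85.PPB.BNIN
import Pool.Agent.Helper3.PPB.BTOR
import Pool.Agent.Helper30.RL.SQR

/-!
# Project WY (MP_fc6b1e_nt), packet Z_GL0
-/

set_option autoImplicit false

namespace Pool.Agent.Helper89.WY

open NumberField Polynomial Module IsDedekindDomain TensorProduct Pool.Agent.Helper51.SigLeo
open Pool.Agent.Helper51.RP Pool.Agent.Helper11.PP Pool.Agent.Helper77.PPB
open Pool.Agent.Helper42.PW Pool.Agent.Helper38.WY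
open Pool.Agent.Helper11.LE (Cyc)
open Pool.Agent.Helper42.RD (TSet)
open Pool.Agent.Helper77.RL (Sqr)
open Pool.Agent.Helper38.FD
open Pool.Agent.Helper13.RL
open Pool.Agent.Helper8.PPB (eq_one_sup torOK_one finrank_cut)

/-- An automorphism of `J` extends to an automorphism of `M₂ = M₁ J` which is trivial on `M₁`; if `ε` is
in `M₁`, then it maps `α` (of type `ω`) to `α c ^ p`. -/
theorem lift_om {p n : ℕ} [hpf : Fact p.Prime] {K M₁ J M₂ : Type} [Field K] [NumberField K] [Field M₁]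
    [NumberField M₁] [Field J] [NumberField J] [Field M₂] [NumberField M₂] [Algebra K M₁]
    [Algebra K J] [Algebra K M₂] [Algebra M₁ M₂] [Algebra J M₂] [IsScalarTower K M₁ M₂]
    [IsScalarTower K J M₂] (hS : Sqr p n K M₁ J M₂) (ε : M₁) (α : M₂)
    (hε : IsPrimitiveRoot (algebraMap M₁ M₂ ε) p) (hα : OmType p K (algebraMap M₁ M₂ ε) α)
    (g : J ≃ₐ[K] J) :
    ∃ (f : M₂ ≃+* M₂) (c : M₂), (∀ x : J, f (algebraMap J M₂ x) = algebraMap J M₂ (g x)) ∧
      f (algebraMap M₁ M₂ ε) = algebraMap M₁ M₂ ε ∧ f α = α * c ^ p := by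
  have hp := hpf.out
  obtain ⟨-, -, -, -, hf⟩ := Pool.Agent.Helper30.RL.l_sqr p n K M₁ J M₂ hS
  obtain ⟨f, hf1, hf2⟩ := hf 1 g
  obtain ⟨i, c, hi, hc⟩ := hα f
  have hfε : f (algebraMap M₁ M₂ ε) = algebraMap M₁ M₂ ε := by
    rw [hf1]
    rfl
  rw [hfε] at hi
  obtain ⟨j, rfl⟩ : ∃ j, i = 1 + p * j := by
    rcases Nat.eq_zero_or_pos i with h0 | h0
    · exfalso
      rw [h0, pow_zero] at hi
      exact hε.ne_one hp.one_lt hi
    · have h3 : (algebraMap M₁ M₂ ε) ^ (i - 1) = 1 := by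
        have h4 : (algebraMap M₁ M₂ ε) * (algebraMap M₁ M₂ ε) ^ (i - 1) = algebraMap M₁ M₂ ε := by
          rw [← pow_succ', Nat.sub_add_cancel h0]
          exact hi.symm
        exact mul_left_cancel₀ (hε.ne_zero hp.ne_zero) (by rw [h4, mul_one])
      obtain ⟨j, hj⟩ := hε.dvd_of_pow_eq_one _ h3
      exact ⟨j, by omega⟩
  refine ⟨f.toRingEquiv, α ^ j * c, fun x => hf2 x, hfε, ?_⟩
  show f α = _
  rw [hc, mul_pow, ← pow_mul, mul_comm j p, ← mul_assoc, ← pow_succ', add_comm 1]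

theorem z_gl0 (h1 : Z_TRV) (h3 : Z_CO0) : Pool.Agent.Helper38.WY.Z_GL0 := by
  intro p hpf K _ _ ιinf ιp Lg S hcl hnr M₁ J M₂ _ _ _ _ _ hM₂ hcop hJd ψ₁
    hψ₁p hψ₁J hnt ε α hε hεM₁ hgen hom hnp hgs hsel
  have hp := hpf.out
  obtain ⟨n, hJd⟩ := hJd
  have hfM₁ : FiniteDimensional K M₁ := Module.Finite.of_restrictScalars_finite ℚ K M₁
  have hfJ : FiniteDimensional K J := Module.Finite.of_restrictScalars_finite ℚ K J
  have hfM₂ : FiniteDimensional K M₂ := Module.Finite.of_restrictScalars_finite ℚ K M₂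
  have hM₁M₂ : M₁ ≤ M₂ := by rw [hM₂]; exact le_sup_left
  have hJM₂ : J ≤ M₂ := by rw [hM₂]; exact le_sup_right
  have hgM₂ : IsGalois K M₂ := by rw [hM₂]; infer_instance
  have hα0 : (α : M₂) ≠ 0 := α.ne_zero
  have hεΩ : IsPrimitiveRoot (ε : AlgebraicClosure K) p :=
    hε.map_of_injective (algebraMap M₂ (AlgebraicClosure K)).injective
  -- the Kummer generator
  obtain ⟨s, hs⟩ := IsAlgClosed.exists_pow_nat_eq ((α : M₂) : AlgebraicClosure K) hp.pos
  have hsM₂ : s ∉ M₂ := by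
    intro h
    apply hnp
    have e1 : (⟨s, h⟩ : M₂) ^ p = (α : M₂) := Subtype.ext hs
    refine ⟨Units.mk0 (⟨s, h⟩ : M₂) ?_, ?_⟩
    · intro h0
      rw [h0, zero_pow hp.ne_zero] at e1
      exact hα0 e1.symm
    · apply Units.ext
      rw [Units.val_pow_eq_pow_val, Units.val_mk0]
      exact e1.symm
  have hs0 : s ≠ 0 := fun h => hsM₂ (by rw [h]; exact M₂.zero_mem)
  have hsg : ∀ g : AlgebraicClosure K ≃ₐ[K] AlgebraicClosure K, (∀ x ∈ M₂, g x = x) →
      ψ₁ g = 1 → g s = s := fun g g1 g2 => hgs s hs g g1 g2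
  -- the field of `ψ₁`
  obtain ⟨F₁, hfF₁, hcF₁⟩ : ∃ F₁ : IntermediateField K (AlgebraicClosure K),
      FiniteDimensional K F₁ ∧ CutsOut ψ₁ F₁ := by
    have hfs : FiniteDimensional K (IntermediateField.adjoin K {s}) :=
      IntermediateField.adjoin.finiteDimensional (Algebra.IsIntegral.isIntegral s)
    refine exists_cutsOut ψ₁ (M₂ ⊔ IntermediateField.adjoin K {s}) fun g hg => ?_
    have g1 : ∀ x ∈ M₂, g x = x := fun x hx => hg x (le_sup_left (a := M₂) hx)
    have g2 : g s = s := hg s (le_sup_right (a := M₂)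
      (IntermediateField.mem_adjoin_simple_self K s))
    obtain ⟨h, h1, h2⟩ := exists_gK (K := K) hp hεΩ ε.2 (α : M₂).2
      (fun h0 => hα0 (Subtype.ext h0)) hs hsM₂
    have hne : ψ₁ h ≠ 1 := fun h0 => by
      have e1 := hsg h h1 h0
      rw [h2] at e1
      have e2 : (ε : AlgebraicClosure K) = 1 := mul_right_cancel₀ hs0 (by rw [e1, one_mul])
      exact hεΩ.ne_one hp.one_lt e2
    have hhp : ψ₁ h ^ p = 1 := hψ₁J h fun x hx => h1 x (hJM₂ hx)
    have hgp : ψ₁ g ^ p = 1 := hψ₁J g fun x hx => g1 x (hJM₂ hx)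
    have hprim : IsPrimitiveRoot (ψ₁ h) p := by
      have e1 : orderOf (ψ₁ h) = p := orderOf_eq_prime hhp hne
      exact IsPrimitiveRoot.iff_orderOf.2 e1
    have hprim' : IsPrimitiveRoot ((ψ₁ h : ℂ_[p]ˣ) : ℂ_[p]) p := IsPrimitiveRoot.coe_units_iff.2 hprim
    have hgp' : ((ψ₁ g : ℂ_[p]ˣ) : ℂ_[p]) ^ p = 1 := by
      rw [← Units.val_pow_eq_pow_val, hgp, Units.val_one]
    obtain ⟨i, hi, e⟩ := hprim'.eq_pow_of_pow_eq_one hgp'
    have e' : ψ₁ h ^ i = ψ₁ g := Units.ext (by rw [Units.val_pow_eq_pow_val]; exact e)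
    have hpow : ∀ j : ℕ, (h ^ j) s = (ε : AlgebraicClosure K) ^ j * s := by
      intro j
      induction j with
      | zero => rw [pow_zero, pow_zero, one_mul]; rfl
      | succ j ih =>
        rw [pow_succ', AlgEquiv.mul_apply, ih, map_mul, map_pow, h1 _ ε.2, h2]
        ring
    have hfix : ∀ j : ℕ, ∀ x ∈ M₂, (h ^ j) x = x := by
      intro j
      induction j with
      | zero => intro x _; rw [pow_zero]; rfl
      | succ j ih => intro x hx; rw [pow_succ', AlgEquiv.mul_apply, ih x hx, h1 x hx]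
    have e3 : (g⁻¹ * h ^ i) s = s := by
      apply hsg
      · intro x hx
        rw [AlgEquiv.mul_apply, hfix i x hx]
        show g.symm x = x
        rw [AlgEquiv.symm_apply_eq]
        exact (g1 x hx).symm
      · rw [map_mul, map_inv, map_pow, e', inv_mul_cancel]
    have e4 : (h ^ i) s = s := by
      rw [AlgEquiv.mul_apply] at e3
      have e5 : (h ^ i) s = g s := (g.apply_symm_apply _).symm.trans (congrArg g e3)
      rw [e5, g2]
    rw [hpow] at e4
    have e6 : (ε : AlgebraicClosure K) ^ i = 1 := mul_right_cancel₀ hs0 (by rw [e4, one_mul])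
    have e7 : i = 0 := by
      by_contra h0
      exact hεΩ.pow_ne_one_of_pos_of_lt h0 hi e6
    rw [← e', e7, pow_zero]
  have hgF₁ : IsGalois K F₁ := isGalois_of_cutsOut hcF₁
  -- the field `F`
  obtain ⟨F, hF⟩ : ∃ F : IntermediateField K (AlgebraicClosure K), F = J ⊔ F₁ := ⟨_, rfl⟩
  have hgF : IsGalois K F := by rw [hF]; infer_instance
  have hfF : FiniteDimensional K F := by rw [hF]; infer_instance
  have hJF : J ≤ F := by rw [hF]; exact le_sup_left
  have hF₁F : F₁ ≤ F := by rw [hF]; exact le_sup_right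
  have hFd : finrank K F = p ^ (n + 1) := by
    rw [finrank_cut hp hF hcF₁ hψ₁J hnt, hJd, pow_succ]
  have hnF : NumberField F := NumberField.of_module_finite K F
  -- algebras
  let _ : Algebra M₁ M₂ := (IntermediateField.inclusion hM₁M₂).toRingHom.toAlgebra
  let _ : Algebra J M₂ := (IntermediateField.inclusion hJM₂).toRingHom.toAlgebra
  have t1 : IsScalarTower K M₁ M₂ := IsScalarTower.of_algebraMap_eq fun x => rfl
  have t2 : IsScalarTower K J M₂ := IsScalarTower.of_algebraMap_eq fun x => rfl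
  -- the squares
  have hq1 : Sqr p n K K J J :=
    { galM := inferInstance
      galL := inferInstance
      gal := inferInstance
      cop := by rw [finrank_self]; exact Nat.coprime_one_left p
      deg := hJd
      gen := fun g _ h => by
        ext x
        exact congrArg Subtype.val (h x) }
  have hq2 : Sqr p n K M₁ J M₂ :=
    sqr_sup' hM₂ (fun _ => rfl) (fun _ => rfl) inferInstance inferInstance hcop hJd
  have hlf := lift_om hq2 (⟨(ε : AlgebraicClosure K), hεM₁⟩ : M₁) (α : M₂) hε hom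
  -- the lifting theorem
  have hirr : Irreducible (X - 1 : (ZMod p)[X]) := by
    have h := irreducible_X_sub_C (1 : ZMod p)
    rwa [map_one] at h
  have htor : TorOK (X - 1 : (ZMod p)[X]) (1 : J ≃ₐ[J] J) :=
    Pool.Agent.Helper3.PPB.b_tor p K K J J n hJd 1 1 _ (fun _ => rfl) (torOK_one hnr)
  have hlift := h1 p n 1 K K J J M₂ hq1 1 1 (X - 1) hirr (one_pow 1)
    (fun _ => rfl) htor (TSet ιinf ιp S) ε (α : M₂) hε hα0 hlf hsel
  have hcyc : Cyc p J M₂ ε :=
    { prim := hε
      gal := IsGalois.tower_top_of_isGalois K J M₂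
      gen := by
        intro g hg
        have hr := AlgEquiv.restrictNormal_commutes (g.restrictScalars K) M₁
        have e1 : (g.restrictScalars K).restrictNormal M₁ = 1 := by
          apply hgen
          intro x hx
          apply (algebraMap M₁ M₂).injective
          rw [hr x]
          have e2 : algebraMap M₁ M₂ x = ε := Subtype.ext hx
          rw [e2]
          exact hg
        have e3 : g.restrictScalars K = 1 := by
          refine eq_one_sup hM₂ _ (fun z hz => ?_) (fun z hz => ?_)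
          · have e4 := hr ⟨z, hz⟩
            rw [e1] at e4
            exact e4.symm
          · exact g.commutes ⟨z, hz⟩
        ext x
        exact congrArg Subtype.val (AlgEquiv.congr_fun e3 x) }
  have homL : OmType p J ε (α : M₂) := fun τ => hom (τ.restrictScalars K)
  have hselO : ∀ x : Jˣ,
      (∀ W : HeightOneSpectrum (𝓞 M₂), LocW p W (α : M₂) (algebraMap J M₂ (x : J))) →
      (∀ τ ∈ (above (TSet ιinf ιp S) : Set (M₂ →+* ℂ_[p])),
        SigT p τ ε (α : M₂) (algebraMap J M₂ (x : J))) → Pw p x :=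
    fun x hx1 hx2 => hlift x ⟨Pool.Agent.Helper86.PPO.pw_pol_one _ (by simp) x, hx1, hx2⟩
  -- the characters
  have hcut : ∀ g : AlgebraicClosure K ≃ₐ[K] AlgebraicClosure K, (∀ x ∈ F, g x = x) →
      ψ₁ g = 1 := fun g hg => (hcF₁ g).2 fun x hx => hg x (hF₁F hx)
  obtain ⟨χ', hinj, hχ'⟩ := exists_faithful hcF₁
  obtain ⟨η, hη⟩ := exists_desc (χ := ψ₁) (H := F) hcut
  have r : ∀ (g : AlgebraicClosure K ≃ₐ[K] AlgebraicClosure K)
      (X : IntermediateField K (AlgebraicClosure K)) [IsGalois K X],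
      Restricts (algebraMap X (AlgebraicClosure K)) g (AlgEquiv.restrictNormalHom X g) :=
    fun g X _ x => (AlgEquiv.restrictNormal_commutes g X x).symm
  refine ⟨F₁, hfF₁, hcF₁, χ', hχ', ?_⟩
  refine h3 p K ιinf ιp Lg S hcl n J F M₂ (fun _ => rfl) hJF hJd hFd ε (α : M₂) hcyc homL hα0 s hs
    hsM₂ (fun g g1 g2 => ?_) hselO F₁ χ' η hinj ?_ fun g => ?_
  · exact hsg g g2 ((hcF₁ g).2 fun x hx => g1 x (hF₁F hx))
  · obtain ⟨g, g1, g2⟩ := hnt
    refine ⟨AlgEquiv.restrictNormalHom F g, fun x hx => ?_, ?_⟩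
    · apply Subtype.ext
      have e1 := r g F x
      exact e1.symm.trans (g1 _ hx)
    · rw [← hη g _ (r g F)]
      exact g2
  · rw [← hχ' g _ (r g F₁), hη g _ (r g F)]

end Pool.Agent.Helper89.WY
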