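import Pool.Agent.Helper38.WY.Goals2

/-!
# Project WY (MP_fc6b1e_nt): Y_LIN, the line for number fields
-/

set_option autoImplicit false

namespace Pool.Agent.Helper89.WY

open NumberField Polynomial Module IsDedekindDomain
open Pool.Agent.Helper51.RP Pool.Agent.Helper42.PP Pool.Agent.Helper42.PW
open Pool.Agent.Helper38.WY

section cj

variable {p : ℕ} [hp : Fact p.Prime]

theorem cjs_add {k : Type} [Field k] (ζ β : k) (z : ℕ → k) (i l : ℕ) :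
    cjs p ζ (ζ ^ i * β) z l = cjs p ζ β z (l + i) := by
  unfold cjs
  refine Finset.sum_congr rfl fun j _ => ?_
  rw [← mul_assoc, ← pow_add]

theorem cjs_per {k : Type} [Field k] {ζ : k} (h : ζ ^ p = 1) (β : k) (z : ℕ → k) (i a : ℕ) :
    cjs p ζ β z (i + p * a) = cjs p ζ β z i := by
  unfold cjs
  have h1 : ζ ^ (i + p * a) = ζ ^ i := by rw [pow_add, pow_mul, h, one_pow, mul_one]
  rw [h1]

theorem prod_shift {k : Type} [CommRing k] (f : ℕ → k) (h : ∀ i, f (i + p) = f i) (i : ℕ) :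
    ∏ l ∈ Finset.range p, f (l + i) = ∏ l ∈ Finset.range p, f l := by
  obtain ⟨q, hq⟩ : ∃ q, p = q + 1 := Nat.exists_eq_succ_of_ne_zero hp.out.ne_zero
  induction i with
  | zero => rfl
  | succ i ih =>
    rw [← ih]
    have h3 : f (q + (i + 1)) = f (0 + i) := by
      have h4 : q + (i + 1) = i + p := by omega
      rw [h4, h, zero_add]
    rw [hq, Finset.prod_range_succ, Finset.prod_range_succ' (fun l => f (l + i)), h3]
    congr 1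
    refine Finset.prod_congr rfl fun l _ => ?_
    congr 1
    omega

/-- `SigT` with a given `β`. -/
theorem sig_any {F : Type} [Field F] {τ : F →+* ℂ_[p]} {ε α x : F} (hε : IsPrimitiveRoot ε p)
    (hα : α ≠ 0) {β : ℂ_[p]} (hβ : β ^ p = τ α) (h : SigT p τ ε α x) :
    ∃ (z : ℕ → ℂ_[p]) (n : ℕ), (∀ j, z j ∈ closure (Set.range τ)) ∧ 0 < n ∧
      ∏ i ∈ Finset.range p, cjs p (τ ε) β z i = τ x ∧
      ∀ i, cjs p (τ ε) β z i ^ n = cjs p (τ ε) β z 0 ^ n := by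
  obtain ⟨β', z, n, hβ', hz, hn, hpr, hc⟩ := h
  have hpp := hp.out
  have hζ : IsPrimitiveRoot (τ ε) p := hε.map_of_injective τ.injective
  have hτα : τ α ≠ 0 := (map_ne_zero τ).2 hα
  have hβ0 : β ≠ 0 := by
    rintro rfl
    rw [zero_pow hpp.ne_zero] at hβ
    exact hτα hβ.symm
  have h1 : (β' / β) ^ p = 1 := by
    rw [div_pow, hβ', hβ, div_self hτα]
  have : NeZero p := ⟨hpp.ne_zero⟩
  obtain ⟨i, -, hi⟩ := hζ.eq_pow_of_pow_eq_one h1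
  have h2 : β' = τ ε ^ i * β := by
    rw [hi, div_mul_cancel₀ _ hβ0]
  have h3 : ∀ l, cjs p (τ ε) β' z l = cjs p (τ ε) β z (l + i) := by
    intro l
    rw [h2, cjs_add]
  have hper : ∀ l a, cjs p (τ ε) β z (l + p * a) = cjs p (τ ε) β z l :=
    fun l a => cjs_per hζ.pow_eq_one β z l a
  refine ⟨z, n, hz, hn, ?_, ?_⟩
  · rw [← hpr]
    have h4 : ∏ l ∈ Finset.range p, cjs p (τ ε) β' z l =
        ∏ l ∈ Finset.range p, cjs p (τ ε) β z (l + i) :=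
      Finset.prod_congr rfl fun l _ => h3 l
    rw [h4]
    refine (prod_shift (fun l => cjs p (τ ε) β z l) (fun l => ?_) i).symm
    have := hper l 1
    rwa [mul_one] at this
  · have h5 : ∀ l, cjs p (τ ε) β z l ^ n = cjs p (τ ε) β' z 0 ^ n := by
      intro l
      have h6 : l + p * i = (l + (p - 1) * i) + i := by
        obtain ⟨q, hq⟩ : ∃ q, p = q + 1 := Nat.exists_eq_succ_of_ne_zero hpp.ne_zero
        rw [hq, Nat.add_sub_cancel]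
        ring
      rw [← hper l i, h6, ← h3, hc]
    intro l
    rw [h5 l, h5 0]

end cj

theorem sub_le_max {k : Type} [SeminormedAddCommGroup k] [IsUltrametricDist k] (x y : k) :
    ‖x - y‖ ≤ max ‖x‖ ‖y‖ := by
  rw [sub_eq_add_neg]
  refine (IsUltrametricDist.norm_add_le_max x (-y)).trans ?_
  rw [norm_neg]

section dense

variable {p : ℕ} [hp : Fact p.Prime] {H : Type} [Field H] {τ : H →+* ℂ_[p]}
  {𝓕 : IntermediateField ℚ_[p] ℂ_[p]} [FiniteDimensional ℚ_[p] 𝓕]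

theorem ext_dense (hI : L_ISO) (h : ∀ x, τ x ∈ 𝓕)
    (hd : ∀ y ∈ 𝓕, ∀ e : ℝ, 0 < e → ∃ x : H, ‖y - τ x‖ < e) (φ ψ : 𝓕 ≃ₐ[ℚ_[p]] 𝓕)
    (hφ : ∀ x : H, φ ⟨τ x, h x⟩ = ψ ⟨τ x, h x⟩) : φ = ψ := by
  refine AlgEquiv.ext fun y => ?_
  by_contra hne
  have he : 0 < ‖φ y - ψ y‖ := norm_pos_iff.2 (sub_ne_zero.2 hne)
  obtain ⟨x, hx⟩ := hd y y.2 _ he
  set X : 𝓕 := ⟨τ x, h x⟩ with hX
  have h1 : φ y - ψ y = φ (y - X) - ψ (y - X) := by
    rw [map_sub, map_sub, hφ x]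
    ring
  have h2 : ‖y - X‖ < ‖φ y - ψ y‖ := hx
  have h3 : ‖φ y - ψ y‖ ≤ ‖y - X‖ := by
    calc ‖φ y - ψ y‖ = ‖φ (y - X) - ψ (y - X)‖ := by rw [← h1]
      _ ≤ max ‖φ (y - X)‖ ‖ψ (y - X)‖ := sub_le_max _ _
      _ = ‖y - X‖ := by rw [hI p 𝓕 φ, hI p 𝓕 ψ, max_self]
  exact absurd h2 (not_lt.2 h3)

theorem mem_clo (h : ∀ x, τ x ∈ 𝓕)
    (hd : ∀ y ∈ 𝓕, ∀ e : ℝ, 0 < e → ∃ x : H, ‖y - τ x‖ < e) (y : ℂ_[p]) :
    y ∈ closure (Set.range τ) ↔ y ∈ 𝓕 := by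
  constructor
  · intro hy
    have hc : IsClosed ((𝓕.toSubalgebra.toSubmodule : Submodule ℚ_[p] ℂ_[p]) : Set ℂ_[p]) := by
      have : FiniteDimensional ℚ_[p] (𝓕.toSubalgebra.toSubmodule : Submodule ℚ_[p] ℂ_[p]) :=
        ‹FiniteDimensional ℚ_[p] 𝓕›
      exact Submodule.closed_of_finiteDimensional _
    have h1 : closure (Set.range τ) ⊆
        ((𝓕.toSubalgebra.toSubmodule : Submodule ℚ_[p] ℂ_[p]) : Set ℂ_[p]) := by
      refine closure_minimal ?_ hc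
      rintro _ ⟨x, rfl⟩
      exact h x
    exact h1 hy
  · intro hy
    rw [Metric.mem_closure_range_iff]
    intro e he
    obtain ⟨x, hx⟩ := hd y hy e he
    exact ⟨x, by rwa [dist_eq_norm]⟩

end dense

section local_data

variable {p : ℕ} [hp : Fact p.Prime] {M₁ M₂ : Type} [Field M₁] [NumberField M₁] [Field M₂]
  [NumberField M₂] [Algebra M₁ M₂]

omit [NumberField M₂] in
theorem pow_apply' {A : Type} [Field A] [Algebra A M₂] {𝓕 : IntermediateField ℚ_[p] ℂ_[p]}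
    {τ : M₂ →+* ℂ_[p]} (h : ∀ x, τ x ∈ 𝓕)
    {σ : M₂ ≃ₐ[A] M₂} {σ' : 𝓕 ≃ₐ[ℚ_[p]] 𝓕}
    (hσ : ∀ x, ((σ' ⟨τ x, h x⟩ : 𝓕) : ℂ_[p]) = τ (σ x)) (j : ℕ) (x : M₂) :
    (σ' ^ j) ⟨τ x, h x⟩ = ⟨τ ((σ ^ j) x), h _⟩ := by
  induction j generalizing x with
  | zero => rfl
  | succ j ih =>
    rw [pow_succ, AlgEquiv.mul_apply]
    have h1 : σ' ⟨τ x, h x⟩ = ⟨τ (σ x), h _⟩ := Subtype.ext (hσ x)
    rw [h1, ih]
    rw [pow_succ, AlgEquiv.mul_apply]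

theorem loc_data [IsGalois M₁ M₂] (hC : L_CLO) (hD : L_DEN) (hI : L_ISO) (hcyc : IsCyclic (M₂ ≃ₐ[M₁] M₂))
    (hdeg : ∃ l : ℕ, finrank M₁ M₂ = p ^ l) (τ : M₂ →+* ℂ_[p]) :
    ∃ (𝓕 : IntermediateField ℚ_[p] ℂ_[p]) (_ : FiniteDimensional ℚ_[p] 𝓕)
      (h : ∀ x, τ x ∈ 𝓕) (σ : M₂ ≃ₐ[M₁] M₂) (σ' : 𝓕 ≃ₐ[ℚ_[p]] 𝓕) (t : ℕ),
      (∀ y ∈ 𝓕, ∀ e : ℝ, 0 < e → ∃ x, ‖y - τ x‖ < e) ∧
      (∀ g : M₂ ≃+* M₂, (∀ x, ‖τ (g x)‖ = ‖τ x‖) →
        ∃ g' : 𝓕 ≃ₐ[ℚ_[p]] 𝓕, ∀ x, ((g' ⟨τ x, h x⟩ : 𝓕) : ℂ_[p]) = τ (g x)) ∧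
      orderOf σ = p ^ t ∧ orderOf σ' = p ^ t ∧
      (∀ x, ((σ' ⟨τ x, h x⟩ : 𝓕) : ℂ_[p]) = τ (σ x)) ∧
      ∀ w : 𝓕, σ' w = w → (w : ℂ_[p]) ∈ closure (Set.range (τ.comp (algebraMap M₁ M₂))) := by
  obtain ⟨𝓕, hfd, h, hd, hext⟩ := hC p ℂ_[p] M₂ τ
  let D : Subgroup (M₂ ≃ₐ[M₁] M₂) :=
    { carrier := {g | ∀ y, ‖τ (g y)‖ = ‖τ y‖}
      mul_mem' := by
        intro a b ha hb y
        rw [AlgEquiv.mul_apply, ha, hb]
      one_mem' := fun y => rfl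
      inv_mem' := by
        intro a ha y
        have h1 := ha (a⁻¹ y)
        rw [← AlgEquiv.mul_apply, mul_inv_cancel, AlgEquiv.one_apply] at h1
        exact h1.symm }
  have hDc : IsCyclic D := Subgroup.isCyclic D
  obtain ⟨σ₀, hσ₀⟩ := hDc.exists_generator
  have hσD : ∀ y, ‖τ (σ₀.1 y)‖ = ‖τ y‖ := σ₀.2
  obtain ⟨σ', hσ'⟩ := hext (σ₀.1 : M₂ ≃+* M₂) hσD
  have hσ'' : ∀ x, ((σ' ⟨τ x, h x⟩ : 𝓕) : ℂ_[p]) = τ (σ₀.1 x) := hσ'
  obtain ⟨l, hl⟩ := hdeg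
  have hord : orderOf σ₀.1 ∣ p ^ l := by
    rw [← hl, ← IsGalois.card_aut_eq_finrank]
    exact orderOf_dvd_natCard σ₀.1
  obtain ⟨t, -, ht⟩ := (Nat.dvd_prime_pow hp.out).1 hord
  have hord' : orderOf σ' = orderOf σ₀.1 := by
    rw [orderOf_eq_orderOf_iff]
    intro n
    constructor
    · intro h1
      refine AlgEquiv.ext fun x => ?_
      have h2 := pow_apply' h hσ'' n x
      rw [h1] at h2
      have h3 : τ x = τ ((σ₀.1 ^ n) x) := congrArg Subtype.val h2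
      exact (τ.injective h3).symm
    · intro h1
      refine ext_dense hI h hd _ _ fun x => ?_
      rw [pow_apply' h hσ'' n x, h1]
      rfl
  refine ⟨𝓕, hfd, h, σ₀.1, σ', t, hd, hext, ht, hord'.trans ht, hσ'', ?_⟩
  intro w hw
  obtain ⟨C, hC0, hCd⟩ := hD p ℂ_[p] M₁ M₂ τ
  rw [Metric.mem_closure_range_iff]
  intro e he
  set ρ : ℝ := e / (C + 1) / 2 with hρ
  have hρ0 : 0 < ρ := by positivity
  obtain ⟨y, hy⟩ := hd w w.2 ρ hρ0
  have hpow : ∀ j : ℕ, (σ' ^ j) w = w := by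
    intro j
    induction j with
    | zero => rfl
    | succ j ih => rw [pow_succ, AlgEquiv.mul_apply, hw, ih]
  obtain ⟨x, hx⟩ := hCd y ρ hρ0 (by
    intro g hg
    obtain ⟨j, hj⟩ : ∃ j : ℕ, σ₀ ^ j = (⟨g, hg⟩ : D) := by
      have h1 := hσ₀ (⟨g, hg⟩ : D)
      haveI : Finite D := inferInstance
      rw [← mem_powers_iff_mem_zpowers] at h1
      exact h1
    have hj' : σ₀.1 ^ j = g := by
      have := congrArg Subtype.val hj
      simpa using this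
    have h2 := pow_apply' h hσ'' j y
    rw [hj'] at h2
    have h3 : τ (g y) - τ y =
        (((σ' ^ j) (⟨τ y, h y⟩ - w) : 𝓕) : ℂ_[p]) - ((⟨τ y, h y⟩ - w : 𝓕) : ℂ_[p]) := by
      rw [map_sub, hpow, h2]
      show τ (g y) - τ y = (τ (g y) - (w : ℂ_[p])) - (τ y - (w : ℂ_[p]))
      ring
    rw [h3]
    refine (sub_le_max _ _).trans ?_
    have h4 : ‖((⟨τ y, h y⟩ - w : 𝓕) : ℂ_[p])‖ ≤ ρ := by
      show ‖τ y - (w : ℂ_[p])‖ ≤ ρ
      rw [norm_sub_rev]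
      exact hy.le
    refine max_le ?_ h4
    have h5 := hI p 𝓕 (σ' ^ j) (⟨τ y, h y⟩ - w)
    have h6 : ‖(((σ' ^ j) (⟨τ y, h y⟩ - w) : 𝓕) : ℂ_[p])‖ =
        ‖((⟨τ y, h y⟩ - w : 𝓕) : ℂ_[p])‖ := h5
    rw [h6]
    exact h4)
  refine ⟨x, ?_⟩
  rw [dist_eq_norm]
  have h7 : (w : ℂ_[p]) - τ.comp (algebraMap M₁ M₂) x =
      ((w : ℂ_[p]) - τ y) - (τ (algebraMap M₁ M₂ x) - τ y) := by
    rw [RingHom.comp_apply]
    ring
  rw [h7]
  refine (sub_le_max _ _).trans_lt (max_lt ?_ ?_)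
  · refine hy.trans_le ?_
    rw [hρ, div_div]
    refine div_le_self he.le ?_
    nlinarith
  · refine hx.trans_lt ?_
    rw [hρ]
    have h8 : C * (e / (C + 1) / 2) = e * (C / (C + 1)) / 2 := by
      field_simp
    rw [h8]
    have h9 : C / (C + 1) < 1 := by
      rw [div_lt_one (by linarith)]
      linarith
    nlinarith

/-- A power of `g` of order prime to `p` with the same restriction to `M₁`. -/
theorem gal {K : Type} [Field K] [NumberField K] [Algebra K M₁] [Algebra K M₂]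
    [IsGalois K M₁] (hcop : (finrank K M₁).Coprime p) (τ : M₂ →+* ℂ_[p])
    (g : M₂ ≃ₐ[K] M₂) (g₁ : M₁ ≃ₐ[K] M₁) (hg : ∀ y : M₂, ‖τ (g y)‖ = ‖τ y‖)
    (hgg : ∀ y : M₁, g (algebraMap M₁ M₂ y) = algebraMap M₁ M₂ (g₁ y)) :
    ∃ (g' : M₂ ≃ₐ[K] M₂) (d : ℕ), 0 < d ∧ d.Coprime p ∧ g' ^ d = 1 ∧
      (∀ y : M₁, g' (algebraMap M₁ M₂ y) = algebraMap M₁ M₂ (g₁ y)) ∧
      ∀ y, ‖τ (g' y)‖ = ‖τ y‖ := by
  have hpp := hp.out
  have hN : 0 < orderOf g := orderOf_pos g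
  obtain ⟨a, d, hd, hNd⟩ := Nat.exists_eq_pow_mul_and_not_dvd hN.ne' p hpp.ne_one
  have hdp : d.Coprime p := ((Nat.Prime.coprime_iff_not_dvd hpp).2 hd).symm
  have hco : (p ^ a).Coprime d := (hdp.pow_right a).symm
  obtain ⟨k, hk0, hk1⟩ := Nat.chineseRemainder hco 0 1
  have hd0 : 0 < d := by
    rcases Nat.eq_zero_or_pos d with h | h
    · exact absurd (h ▸ dvd_zero p) hd
    · exact h
  have hpowM : ∀ (j : ℕ) (y : M₁), (g ^ j) (algebraMap M₁ M₂ y) =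
      algebraMap M₁ M₂ ((g₁ ^ j) y) := by
    intro j
    induction j with
    | zero => intro y; rfl
    | succ j ih =>
      intro y
      rw [pow_succ, AlgEquiv.mul_apply, hgg, ih, pow_succ, AlgEquiv.mul_apply]
  have hpown : ∀ (j : ℕ) (y : M₂), ‖τ ((g ^ j) y)‖ = ‖τ y‖ := by
    intro j
    induction j with
    | zero => intro y; rfl
    | succ j ih =>
      intro y
      rw [pow_succ, AlgEquiv.mul_apply, ih, hg]
  have hg1N : g₁ ^ orderOf g = 1 := by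
    refine AlgEquiv.ext fun y => (algebraMap M₁ M₂).injective ?_
    rw [← hpowM, pow_orderOf_eq_one]
    rfl
  have h1 : orderOf g₁ ∣ p ^ a * d := by
    rw [← hNd]
    exact orderOf_dvd_of_pow_eq_one hg1N
  have h2 : (orderOf g₁).Coprime p := by
    refine Nat.Coprime.coprime_dvd_left ?_ hcop
    rw [← IsGalois.card_aut_eq_finrank]
    exact orderOf_dvd_natCard g₁
  have h3 : orderOf g₁ ∣ d := (h2.pow_right a).dvd_of_dvd_mul_left h1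
  have h4 : g₁ ^ k = g₁ := by
    have h5 : k ≡ 1 [MOD orderOf g₁] := hk1.of_dvd h3
    have h6 := pow_eq_pow_iff_modEq.2 h5
    rwa [pow_one] at h6
  refine ⟨g ^ k, d, hd0, hdp, ?_, ?_, hpown k⟩
  · rw [← pow_mul]
    have h7 : orderOf g ∣ k * d := by
      rw [hNd]
      exact Nat.mul_dvd_mul_right ((Nat.modEq_zero_iff_dvd).1 hk0) d
    exact orderOf_dvd_iff_pow_eq_one.1 h7
  · intro y
    rw [hpowM, h4]

end local_data

/-- Elementary: exponents prime to `p`. -/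
theorem pw_of_cop {p : ℕ} (hpp : p.Prime) {k : Type} [Field k] {L : Subfield k} {x s : k}
    (hx : x ≠ 0) (hxL : x ∈ L) (hs : s ∈ L) {m : ℤ} (hm : ¬ (p : ℤ) ∣ m) (h : x ^ m = s ^ p) :
    ∃ r ∈ L, r ^ p = x := by
  have hc : IsCoprime (p : ℤ) m :=
    ((Nat.prime_iff_prime_int.1 hpp).coprime_iff_not_dvd).2 hm
  obtain ⟨a, b, hab⟩ := hc
  have hs0 : s ≠ 0 := by
    rintro rfl
    rw [zero_pow hpp.ne_zero] at h
    exact zpow_ne_zero m hx h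
  refine ⟨x ^ a * s ^ b, L.mul_mem (L.zpow_mem hxL a) (L.zpow_mem hs b), ?_⟩
  calc (x ^ a * s ^ b) ^ p = x ^ (a * p) * (s ^ p) ^ b := by
        rw [mul_pow, zpow_mul, zpow_natCast, ← zpow_natCast (s ^ b) p, ← zpow_mul, mul_comm b,
          zpow_mul, zpow_natCast]
    _ = x ^ (a * p + b * m) := by
        rw [← h, ← zpow_mul, mul_comm m b, zpow_add₀ hx]
    _ = x := by rw [hab, zpow_one]

theorem y_lin (hL : Y_LNF) (hC : L_CLO) (hD : L_DEN) (hI : L_ISO) : Y_LIN := by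
  intro p _ K M M₁ M₂ _ _ _ _ _ _ _ _ _ _ _ _ _ _ ε δ P α hG τ
  classical
  have hpp : p.Prime := Fact.out
  haveI := hG.s2
  haveI := hG.gM₂
  haveI := hG.gM₁
  haveI : IsGalois M₁ M₂ := IsGalois.tower_top_of_isGalois K M₁ M₂
  set ε₂ : M₂ := algebraMap M₁ M₂ ε with hε₂
  have hprim : IsPrimitiveRoot ε₂ p := hG.prim.map_of_injective (algebraMap M₁ M₂).injective
  have hε0 : ε₂ ≠ 0 := hprim.ne_zero hpp.ne_zero
  obtain ⟨𝓕, hfd, h, σ, σ', t, hd, hext, hσo, hσo', hσσ, hfix⟩ :=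
    loc_data hC hD hI hG.cyc₂ hG.deg₂ τ
  -- exponents of `ε₂`
  have hexp : ∀ i j : ℕ, ε₂ ^ i = ε₂ ^ j → (p : ℤ) ∣ (i : ℤ) - j := by
    intro i j hij
    refine (hprim.zpow_eq_one_iff_dvd _).1 ?_
    rw [zpow_sub₀ hε0, zpow_natCast, zpow_natCast, hij, div_self (pow_ne_zero _ hε0)]
  obtain ⟨n₀, c₀, hn₀, hc₀⟩ := hG.om (σ.restrictScalars K)
  have hσε : σ ε₂ = ε₂ := σ.commutes ε
  have hn₀' : ε₂ = ε₂ ^ n₀ := by
    have : σ ε₂ = ε₂ ^ n₀ := hn₀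
    rwa [hσε] at this
  obtain ⟨l, hl⟩ : ∃ l : ℕ, n₀ = 1 + p * l := by
    obtain ⟨q, hq⟩ := hexp n₀ 1 (by rw [pow_one]; exact hn₀'.symm)
    have hq0 : 0 ≤ q := by
      by_contra hneg
      have h1 : q ≤ -1 := by omega
      have h2 : (2 : ℤ) ≤ p := by exact_mod_cast hpp.two_le
      have h3 : (n₀ : ℤ) = 1 + p * q := by
        push_cast at hq
        linarith
      have h4 : (0 : ℤ) ≤ n₀ := by positivity
      nlinarith
    refine ⟨q.toNat, ?_⟩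
    have h5 : (n₀ : ℤ) = 1 + p * q := by
      push_cast at hq
      linarith
    have h6 : ((q.toNat : ℕ) : ℤ) = q := Int.toNat_of_nonneg hq0
    have h7 : (n₀ : ℤ) = ((1 + p * q.toNat : ℕ) : ℤ) := by
      push_cast
      rw [h6]
      exact h5
    exact_mod_cast h7
  have hσα : σ α = α * (α ^ l * c₀) ^ p := by
    have h1 : σ α = α ^ n₀ * c₀ ^ p := hc₀
    rw [h1, hl, pow_add, pow_one, pow_mul', mul_pow, mul_assoc]
  set e₀ : M₂ := α ^ l * c₀ with he₀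
  obtain ⟨β, hβ⟩ := IsAlgClosed.exists_pow_nat_eq (τ α) hpp.pos
  have hτinj := τ.injective
  have key := hL p 𝓕 ⟨τ ε₂, h _⟩ ⟨τ α, h _⟩ β
    (IsPrimitiveRoot.of_map_of_injective (f := 𝓕.val.toRingHom.toMonoidHom)
      (hprim.map_of_injective hτinj) Subtype.val_injective)
    (fun h0 => (map_ne_zero τ).2 hG.ne (congrArg Subtype.val h0)) hβ σ' t ⟨τ e₀, h _⟩
    (Subtype.ext (by rw [hσσ, hσε]))
    (Subtype.ext (by
      rw [hσσ, hσα, map_mul, map_pow]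
      rfl)) hσo' (by
      intro ht h0
      have h1 : σ ≠ 1 := by
        intro h1
        rw [h1, orderOf_one] at hσo
        exact absurd hσo (Nat.one_lt_pow ht.ne' hpp.one_lt).ne
      refine hG.cyc σ h1 e₀ hσα ?_
      rw [hσo]
      apply hτinj
      rw [map_prod, map_one]
      have h2 := congrArg (algebraMap 𝓕 ℂ_[p]) h0
      rw [map_prod, map_one] at h2
      rw [← h2]
      refine Finset.prod_congr rfl fun i _ => ?_
      rw [pow_apply' h hσσ i e₀]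
      rfl)
  obtain ⟨keyA, keyB⟩ := key
  set 𝓛 : Subfield ℂ_[p] := (τ.comp (algebraMap M₁ M₂)).fieldRange.topologicalClosure with h𝓛
  have hmem : ∀ y, y ∈ 𝓛 ↔ y ∈ closure (Set.range (τ.comp (algebraMap M₁ M₂))) :=
    fun y => Iff.rfl
  set u : M₁ˣ → ℂ_[p] := fun x => τ (algebraMap M₁ M₂ (x : M₁)) with hu
  have hu0 : ∀ x, u x ≠ 0 := fun x =>
    (map_ne_zero τ).2 ((map_ne_zero (algebraMap M₁ M₂)).2 x.ne_zero)
  have huL : ∀ x, u x ∈ 𝓛 := fun x => (hmem _).2 (subset_closure ⟨(x : M₁), rfl⟩)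
  have hQ : ∀ x : M₁ˣ, PwT p (τ.comp (algebraMap M₁ M₂)) (x : M₁) ↔ ∃ r ∈ 𝓛, r ^ p = u x :=
    fun x => Iff.rfl
  -- `SigF`
  have hSF : ∀ x : M₁ˣ, SigT p τ ε₂ α (algebraMap M₁ M₂ (x : M₁)) →
      SigF (⟨τ ε₂, h _⟩ : 𝓕) β (⟨u x, h _⟩ : 𝓕) := by
    intro x hx
    obtain ⟨z, n, hz, hn, hpr, hc⟩ := sig_any hprim hG.ne hβ hx
    have hz' : ∀ j, z j ∈ 𝓕 := fun j => (mem_clo h hd _).1 (hz j)
    exact ⟨fun j => ⟨z j, hz' j⟩, n, hn, hpr, hc⟩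
  have hXσ : ∀ x : M₁ˣ, σ' ⟨u x, h _⟩ = ⟨u x, h _⟩ := by
    intro x
    refine Subtype.ext ?_
    rw [hσσ, σ.commutes]
  have hX0 : ∀ x : M₁ˣ, (⟨u x, h _⟩ : 𝓕) ≠ 0 := fun x h0 => hu0 x (congrArg Subtype.val h0)
  by_cases hex : ∃ x₁ : M₁ˣ, SigT p τ ε₂ α (algebraMap M₁ M₂ (x₁ : M₁)) ∧
      ¬ PwT p (τ.comp (algebraMap M₁ M₂)) (x₁ : M₁)
  swap
  · refine ⟨fun _ => 0, fun _ _ _ _ => (add_zero 0).symm, ?_, fun _ _ _ _ _ _ _ _ _ =>
      (mul_zero _).symm⟩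
    intro x hx
    refine ⟨fun _ => ?_, fun _ => rfl⟩
    by_contra h0
    exact hex ⟨x, hx, h0⟩
  obtain ⟨x₁, hx₁, hx₁Q⟩ := hex
  set Rel : M₁ˣ → ℤ → Prop := fun x m => ∃ s ∈ 𝓛, u x = u x₁ ^ m * s ^ p with hRel
  have hcop1 : ∀ (m : ℤ) (s : ℂ_[p]), s ∈ 𝓛 → u x₁ ^ m = s ^ p → (p : ℤ) ∣ m := by
    intro m s hs hms
    by_contra hm
    exact hx₁Q ((hQ x₁).2 (pw_of_cop hpp (hu0 x₁) (huL x₁) hs hm hms))
  have hs0 : ∀ {x : M₁ˣ} {m : ℤ} {s : ℂ_[p]}, u x = u x₁ ^ m * s ^ p → s ≠ 0 := by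
    rintro x m s hs rfl
    rw [zero_pow hpp.ne_zero, mul_zero] at hs
    exact hu0 x hs
  have huniq : ∀ {x : M₁ˣ} {m m' : ℤ}, Rel x m → Rel x m' → (m : ZMod p) = (m' : ZMod p) := by
    rintro x m m' ⟨s, hs, hsx⟩ ⟨s', hs', hsx'⟩
    have h1 := hs0 hsx
    have h2 : u x₁ ^ (m - m') = (s' / s) ^ p := by
      rw [zpow_sub₀ (hu0 x₁), div_pow, div_eq_div_iff (zpow_ne_zero _ (hu0 x₁))
        (pow_ne_zero _ h1), ← hsx, hsx', mul_comm]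
    have h3 := hcop1 _ _ (𝓛.div_mem hs' hs) h2
    have h4 : ((m - m' : ℤ) : ZMod p) = 0 := (ZMod.intCast_zmod_eq_zero_iff_dvd _ _).2 h3
    rw [Int.cast_sub] at h4
    exact sub_eq_zero.1 h4
  have hexist : ∀ x : M₁ˣ, SigT p τ ε₂ α (algebraMap M₁ M₂ (x : M₁)) → ∃ m, Rel x m := by
    intro x hx
    obtain ⟨a, b, w, hab, hw0, hwσ, hw⟩ := keyA _ _ (hX0 x) (hX0 x₁) (hXσ x) (hXσ x₁)
      (hSF x hx) (hSF x₁ hx₁)
    have hwL : (w : ℂ_[p]) ∈ 𝓛 := hfix w hwσ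
    have hw' : u x ^ a * u x₁ ^ b = (w : ℂ_[p]) ^ p := by
      have h1 := congrArg (algebraMap 𝓕 ℂ_[p]) hw
      rw [map_mul, map_zpow₀, map_zpow₀, map_pow] at h1
      exact h1
    by_cases ha : (p : ℤ) ∣ a
    · exfalso
      obtain ⟨a', rfl⟩ := ha
      have hb : ¬ (p : ℤ) ∣ b := by
        rcases hab with h1 | h1
        · exact absurd (dvd_mul_right _ _) h1
        · exact h1
      apply hb
      refine hcop1 b ((w : ℂ_[p]) * (u x ^ a')⁻¹)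
        (𝓛.mul_mem hwL (𝓛.inv_mem (𝓛.zpow_mem (huL x) _))) ?_
      rw [mul_pow, ← hw', inv_pow, zpow_mul, zpow_natCast]
      have h2 : (u x ^ a') ^ p = (u x ^ p) ^ a' := by
        rw [← zpow_natCast (u x ^ a'), ← zpow_mul, mul_comm, zpow_mul, zpow_natCast]
      rw [h2]
      have h3 : (u x ^ p) ^ a' ≠ 0 := zpow_ne_zero _ (pow_ne_zero _ (hu0 x))
      field_simp
    · have hc : IsCoprime (p : ℤ) a :=
        ((Nat.prime_iff_prime_int.1 hpp).coprime_iff_not_dvd).2 ha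
      obtain ⟨r, q, hrq⟩ := hc
      refine ⟨-(b * q), u x ^ r * (w : ℂ_[p]) ^ q,
        𝓛.mul_mem (𝓛.zpow_mem (huL x) _) (𝓛.zpow_mem hwL _), ?_⟩
      have hw00 : (w : ℂ_[p]) ≠ 0 := fun h0 => hw0 (Subtype.ext h0)
      have h2 : (u x ^ r * (w : ℂ_[p]) ^ q) ^ p = u x ^ (r * p) * ((w : ℂ_[p]) ^ p) ^ q := by
        rw [mul_pow, zpow_mul, zpow_natCast, ← zpow_natCast ((w : ℂ_[p]) ^ q) p, ← zpow_mul,
          mul_comm q, zpow_mul, zpow_natCast]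
      rw [h2, ← hw', mul_zpow, ← zpow_mul, ← zpow_mul]
      have h3 : u x = u x ^ (r * p + q * a) := by rw [hrq, zpow_one]
      rw [zpow_neg]
      have h4 : u x₁ ^ (b * q) ≠ 0 := zpow_ne_zero _ (hu0 x₁)
      calc u x = u x ^ (r * p + q * a) := h3
        _ = u x ^ (r * p) * u x ^ (a * q) := by rw [zpow_add₀ (hu0 x), mul_comm q a]
        _ = _ := by field_simp
  set f : M₁ˣ → ZMod p := fun x => if hm : ∃ m, Rel x m then ((hm.choose : ℤ) : ZMod p) else 0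
    with hf
  have hfs : ∀ {x : M₁ˣ} {m : ℤ}, Rel x m → f x = (m : ZMod p) := by
    intro x m hm
    have h1 : ∃ m, Rel x m := ⟨m, hm⟩
    have h2 : f x = ((h1.choose : ℤ) : ZMod p) := dif_pos h1
    rw [h2]
    exact huniq h1.choose_spec hm
  refine ⟨f, ?_, ?_, ?_⟩
  · intro x y hx hy
    obtain ⟨m, hm⟩ := hexist x hx
    obtain ⟨m', hm'⟩ := hexist y hy
    rw [hfs hm, hfs hm', ← Int.cast_add]
    apply hfs
    obtain ⟨s, hs, hsx⟩ := hm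
    obtain ⟨s', hs', hsx'⟩ := hm'
    refine ⟨s * s', 𝓛.mul_mem hs hs', ?_⟩
    have h1 : u (x * y) = u x * u y := by
      simp only [hu, Units.val_mul, map_mul]
    rw [h1, hsx, hsx', zpow_add₀ (hu0 x₁), mul_pow]
    ring
  · intro x hx
    obtain ⟨m, hm⟩ := hexist x hx
    rw [hfs hm, hQ x]
    constructor
    · intro h0
      obtain ⟨m', rfl⟩ := (ZMod.intCast_zmod_eq_zero_iff_dvd _ _).1 h0
      obtain ⟨s, hs, hsx⟩ := hm
      refine ⟨u x₁ ^ m' * s, 𝓛.mul_mem (𝓛.zpow_mem (huL x₁) _) hs, ?_⟩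
      rw [hsx, mul_pow, mul_comm (p : ℤ) m', zpow_mul, zpow_natCast]
    · rintro ⟨r, hr, hrx⟩
      have h1 : Rel x 0 := ⟨r, hr, by rw [zpow_zero, one_mul, hrx]⟩
      have h2 := huniq hm h1
      rw [h2, Int.cast_zero]
  · intro g g₁ n hg hgg hgε x hx _
    obtain ⟨g', d, hd0, hdp, hgd, hg'g, hg'n⟩ := gal hG.cop τ g g₁ hg hgg
    obtain ⟨n', c, hn', hc⟩ := hG.om g'
    have h1 : ε₂ ^ n = ε₂ ^ n' := by
      rw [← hn', hg'g, hgε, map_pow]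
    have h2 : (n : ZMod p) = (n' : ZMod p) := by
      have h3 := hexp n n' h1
      have h4 : (((n : ℤ) - n' : ℤ) : ZMod p) = 0 :=
        (ZMod.intCast_zmod_eq_zero_iff_dvd _ _).2 h3
      rw [Int.cast_sub, Int.cast_natCast, Int.cast_natCast] at h4
      exact sub_eq_zero.1 h4
    obtain ⟨gh, hgh⟩ := hext (g' : M₂ ≃+* M₂) hg'n
    have hgh' : ∀ y, ((gh ⟨τ y, h y⟩ : 𝓕) : ℂ_[p]) = τ (g' y) := hgh
    have hghs : ∀ y, gh ⟨τ y, h y⟩ = ⟨τ (g' y), h _⟩ := fun y => Subtype.ext (hgh' y)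
    have hσs : ∀ y, σ' ⟨τ y, h y⟩ = ⟨τ (σ y), h _⟩ := fun y => Subtype.ext (hσσ y)
    have hcm : ∀ y, g' (σ y) = σ (g' y) := fun y =>
      congrArg (fun φ : M₂ ≃ₐ[K] M₂ => φ y) (hG.comm g' (σ.restrictScalars K))
    obtain ⟨w, hw0, hwσ, hw⟩ := keyB gh n' d ⟨τ c, h c⟩
      (by
        rw [hghs]
        refine Subtype.ext ?_
        show τ (g' ε₂) = (τ ε₂) ^ n'
        rw [hn', map_pow])
      (by
        rw [hghs]
        refine Subtype.ext ?_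
        show τ (g' α) = (τ α) ^ n' * (τ c) ^ p
        rw [hc, map_mul, map_pow, map_pow]) hd0 hdp
      (by
        refine ext_dense hI h hd _ _ fun y => ?_
        rw [pow_apply' h hgh' d y, hgd]
        rfl)
      (by
        refine ext_dense hI h hd _ _ fun y => ?_
        rw [AlgEquiv.mul_apply, AlgEquiv.mul_apply, hσs, hghs, hghs, hσs]
        refine Subtype.ext ?_
        show τ (g' (σ y)) = τ (σ (g' y))
        rw [hcm])
      _ (hX0 x) (hXσ x) (hSF x hx)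
    have hwL : (w : ℂ_[p]) ∈ 𝓛 := hfix w hwσ
    have h5 : u (act g₁ x) = u x ^ n' * (w : ℂ_[p]) ^ p := by
      have h6 := congrArg (algebraMap 𝓕 ℂ_[p]) hw
      rw [map_mul, map_pow, map_pow] at h6
      have h7 : algebraMap 𝓕 ℂ_[p] (gh ⟨u x, h _⟩) = u (act g₁ x) := by
        rw [hghs]
        show τ (g' (algebraMap M₁ M₂ (x : M₁))) = τ (algebraMap M₁ M₂ (g₁ (x : M₁)))
        rw [hg'g]
      rw [← h7]
      exact h6
    obtain ⟨m, hm⟩ := hexist x hx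
    have h8 : Rel (act g₁ x) (m * n') := by
      obtain ⟨s, hs, hsx⟩ := hm
      refine ⟨s ^ n' * (w : ℂ_[p]), 𝓛.mul_mem (𝓛.pow_mem hs _) hwL, ?_⟩
      rw [h5, hsx, zpow_mul, zpow_natCast, mul_pow, mul_pow, ← pow_mul, ← pow_mul, mul_comm p n',
        mul_assoc]
    rw [hfs hm, hfs h8, Int.cast_mul, Int.cast_natCast, ← h2, mul_comm]

end Pool.Agent.Helper89.WY
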